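import Mathlib
import Pool.Agent.H184J.Moebius
import Pool.Agent.H184J.THuang
import Pool.Agent.H184J.GL

set_option autoImplicit false

/-!
Depth-2 threshold circuits of size `D 4^D + 1` for Boolean functions of degree `D`.
-/

namespace Pool.Agent.H184R4.TC

open Finset H184J

/-- `f` is computed by a circuit of `m` linear threshold gates of depth at most `d`. -/
def Circ {n : ℕ} (f : (Fin n → Bool) → Bool) (m d : ℕ) : Prop :=
  ∃ (w : Fin m → Fin n → ℝ) (v : Fin m → Fin m → ℝ) (θ : Fin m → ℝ)
    (ℓ : Fin m → ℕ) (o : Fin m) (g : (Fin n → Bool) → Fin m → Bool),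
    (∀ j, 1 ≤ ℓ j ∧ ℓ j ≤ d) ∧
    (∀ j k, v j k ≠ 0 → ℓ k < ℓ j) ∧
    (∀ (x : Fin n → Bool) (j : Fin m),
      g x j = decide (θ j ≤ (∑ i : Fin n, w j i * (if x i then (1 : ℝ) else 0)) +
                            ∑ k : Fin m, v j k * (if g x k then (1 : ℝ) else 0))) ∧
    (∀ x : Fin n → Bool, g x o = f x)

lemma circ_of {ι : Type} [Fintype ι] {n : ℕ} {f : (Fin n → Bool) → Bool} {d : ℕ}
    (w : ι → Fin n → ℝ) (v : ι → ι → ℝ) (θ : ι → ℝ) (ℓ : ι → ℕ) (o : ι)
    (g : (Fin n → Bool) → ι → Bool) (h1 : ∀ j, 1 ≤ ℓ j ∧ ℓ j ≤ d)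
    (h2 : ∀ j k, v j k ≠ 0 → ℓ k < ℓ j)
    (h3 : ∀ (x : Fin n → Bool) (j : ι),
      g x j = decide (θ j ≤ (∑ i : Fin n, w j i * (if x i then (1 : ℝ) else 0)) +
                            ∑ k : ι, v j k * (if g x k then (1 : ℝ) else 0)))
    (h4 : ∀ x : Fin n → Bool, g x o = f x) : Circ f (Fintype.card ι) d := by
  classical
  let e : Fin (Fintype.card ι) ≃ ι := (Fintype.equivFin ι).symm
  refine ⟨fun j => w (e j), fun j k => v (e j) (e k), fun j => θ (e j), fun j => ℓ (e j),
    e.symm o, fun x j => g x (e j), fun j => h1 _, fun j k => h2 _ _, fun x j => ?_, fun x => ?_⟩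
  · have hs : ∑ k : Fin (Fintype.card ι), v (e j) (e k) * (if g x (e k) then (1 : ℝ) else 0) =
        ∑ k : ι, v (e j) k * (if g x k then (1 : ℝ) else 0) :=
      Equiv.sum_comp e (fun k => v (e j) k * (if g x k then (1 : ℝ) else 0))
    dsimp only
    rw [hs]
    exact h3 x (e j)
  · simp [h4]

/-- sign characters -/
noncomputable def ep {n : ℕ} (x : Fin n → Bool) (i : Fin n) : ℝ := if x i then -1 else 1

noncomputable def chi {n : ℕ} (S : Finset (Fin n)) (x : Fin n → Bool) : ℝ := ∏ i ∈ S, ep x i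

/-- number of ones in `S` -/
def kk {n : ℕ} (S : Finset (Fin n)) (x : Fin n → Bool) : ℕ := (S.filter (fun i => x i = true)).card

lemma chi_eq {n : ℕ} (S : Finset (Fin n)) (x : Fin n → Bool) : chi S x = (-1) ^ (kk S x) := by
  unfold chi kk ep
  rw [Finset.prod_ite]
  simp

lemma alt0 (k : ℕ) : (-1 : ℝ) ^ k = 1 + 2 * ∑ j ∈ range k, (-1 : ℝ) ^ (j + 1) := by
  induction k with
  | zero => simp
  | succ k ih =>
    rw [Finset.sum_range_succ, mul_add, ← add_assoc, ← ih]
    ring

lemma alt {k N : ℕ} (h : k ≤ N) :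
    (-1 : ℝ) ^ k = 1 + 2 * ∑ j : Fin N, (-1 : ℝ) ^ ((j : ℕ) + 1) *
      (if (j : ℕ) + 1 ≤ k then (1 : ℝ) else 0) := by
  rw [Fin.sum_univ_eq_sum_range (fun j => (-1 : ℝ) ^ (j + 1) * (if j + 1 ≤ k then (1 : ℝ) else 0)) N,
    alt0 k]
  congr 2
  have h1 : ∑ j ∈ range k, (-1 : ℝ) ^ (j + 1) =
      ∑ j ∈ range k, (-1 : ℝ) ^ (j + 1) * (if j + 1 ≤ k then (1 : ℝ) else 0) := by
    refine Finset.sum_congr rfl fun j hj => ?_
    rw [if_pos (by have := mem_range.1 hj; omega), mul_one]
  rw [h1]
  apply Finset.sum_subset (Finset.range_subset_range.2 h)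
  intro j _ hj
  rw [if_neg (by rw [mem_range] at hj; omega), mul_zero]

lemma orth {n : ℕ} (S S' : Finset (Fin n)) :
    ∑ x : Fin n → Bool, chi S x * chi S' x = if S = S' then (2 : ℝ) ^ n else 0 := by
  classical
  split_ifs with h
  · subst h
    have : ∀ x : Fin n → Bool, chi S x * chi S x = 1 := by
      intro x
      rw [chi_eq, ← pow_add, ← two_mul, pow_mul]; simp
    simp [this]
  · obtain ⟨i, hi⟩ : ∃ i, ¬ (i ∈ S ↔ i ∈ S') := by
      by_contra hne
      push Not at hne
      exact h (Finset.ext fun i => by simpa using hne i)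
    have e1 : ∀ (T : Finset (Fin n)) (x : Fin n → Bool),
        chi T x = ∏ j, (if j ∈ T then (if x j then (-1 : ℝ) else 1) else 1) := by
      intro T x
      rw [Finset.prod_ite_mem, Finset.univ_inter]; rfl
    have e2 : ∀ x : Fin n → Bool, chi S x * chi S' x =
        ∏ j, (fun (j : Fin n) (b : Bool) => (if j ∈ S then (if b then (-1 : ℝ) else 1) else 1) *
          (if j ∈ S' then (if b then (-1 : ℝ) else 1) else 1)) j (x j) := by
      intro x
      rw [e1 S x, e1 S' x, ← Finset.prod_mul_distrib]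
    simp_rw [e2]
    have e3 := (Finset.prod_univ_sum (fun _ : Fin n => (Finset.univ : Finset Bool))
      (fun (j : Fin n) (b : Bool) => (if j ∈ S then (if b then (-1 : ℝ) else 1) else 1) *
          (if j ∈ S' then (if b then (-1 : ℝ) else 1) else 1))).symm
    rw [Fintype.piFinset_univ] at e3
    rw [e3]
    apply Finset.prod_eq_zero (Finset.mem_univ i)
    by_cases h1 : i ∈ S <;> by_cases h2 : i ∈ S' <;> simp [h1, h2] at hi ⊢

variable {n : ℕ} (f : (Fin n → Bool) → Bool) (D : ℕ)

/-- scaled Fourier coefficients -/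
noncomputable def AA (S : Finset (Fin n)) : ℤ :=
  (-1) ^ S.card * ∑ T ∈ univ.filter (fun T => S ⊆ T), cf f T * 2 ^ (D - T.card)

lemma pt_ones (x : Fin n → Bool) : pt (univ.filter (fun i => x i = true)) = x := by
  funext i
  simp [pt]

variable {f D}

lemma ind (T : Finset (Fin n)) (x : Fin n → Bool) :
    ∑ S ∈ T.powerset, (-1 : ℝ) ^ S.card * chi S x =
      (2 : ℝ) ^ T.card * (if T ⊆ univ.filter (fun i => x i = true) then 1 else 0) := by
  have h1 : ∏ i ∈ T, (1 + (-ep x i)) = ∑ S ∈ T.powerset, (-1 : ℝ) ^ S.card * chi S x := by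
    rw [Finset.prod_one_add]
    refine Finset.sum_congr rfl fun S _ => ?_
    unfold chi
    rw [Finset.prod_neg]
  rw [← h1]
  split_ifs with h
  · have : ∀ i ∈ T, (1 + (-ep x i)) = 2 := by
      intro i hi
      have := h hi
      simp only [mem_filter, mem_univ, true_and] at this
      simp [ep, this]; norm_num
    rw [Finset.prod_congr rfl this]; simp
  · rw [Finset.not_subset] at h
    obtain ⟨i, hi, hi2⟩ := h
    simp only [mem_filter, mem_univ, true_and, Bool.not_eq_true] at hi2
    rw [mul_zero]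
    apply Finset.prod_eq_zero hi
    simp [ep, hi2]

lemma expand (hD : ∀ S, cf f S ≠ 0 → S.card ≤ D) (x : Fin n → Bool) :
    (2 : ℝ) ^ D * (if f x then 1 else 0) = ∑ S : Finset (Fin n), (AA f D S : ℝ) * chi S x := by
  classical
  set U : Finset (Fin n) := univ.filter (fun i => x i = true) with hU
  have h1 : (if f x then (1 : ℝ) else 0) = ((v01 (f x) : ℤ) : ℝ) := by
    unfold v01; split_ifs <;> simp
  have h2 : ((v01 (f x) : ℤ) : ℝ) = ∑ T : Finset (Fin n), (if T ⊆ U then (cf f T : ℝ) else 0) := by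
    have h := Moeb.cf_inversion f U
    rw [hU, pt_ones] at h
    rw [← h, ← Finset.sum_filter]
    push_cast
    apply Finset.sum_congr _ (fun _ _ => rfl)
    ext T; simp [hU]
  rw [h1, h2, Finset.mul_sum]
  have h3 : ∀ S : Finset (Fin n), (AA f D S : ℝ) * chi S x =
      ∑ T : Finset (Fin n), (if S ⊆ T then
        ((cf f T : ℝ) * 2 ^ (D - T.card)) * ((-1 : ℝ) ^ S.card * chi S x) else 0) := by
    intro S
    unfold AA
    push_cast
    rw [← Finset.sum_filter, Finset.mul_sum, Finset.sum_mul]
    refine Finset.sum_congr rfl fun T _ => ?_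
    ring
  simp_rw [h3]
  rw [Finset.sum_comm]
  refine Finset.sum_congr rfl fun T _ => ?_
  have h4 : ∑ S : Finset (Fin n), (if S ⊆ T then
        ((cf f T : ℝ) * 2 ^ (D - T.card)) * ((-1 : ℝ) ^ S.card * chi S x) else 0) =
      ((cf f T : ℝ) * 2 ^ (D - T.card)) * ∑ S ∈ T.powerset, (-1 : ℝ) ^ S.card * chi S x := by
    rw [← Finset.sum_filter, Finset.mul_sum]
    apply Finset.sum_congr _ (fun _ _ => rfl)
    ext S; simp
  rw [h4, ind T x]
  by_cases hT : cf f T = 0
  · simp [hT]
  · have h5 := hD T hT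
    have h6 : (2 : ℝ) ^ (D - T.card) * 2 ^ T.card = 2 ^ D := by
      rw [← pow_add]; congr 1; omega
    rw [← hU]
    split_ifs
    · rw [← h6]; ring
    · simp

lemma parseval (hD : ∀ S, cf f S ≠ 0 → S.card ≤ D) :
    ∑ S : Finset (Fin n), (AA f D S : ℝ) ^ 2 ≤ 4 ^ D := by
  classical
  have h1 : ∑ x : Fin n → Bool, ((2 : ℝ) ^ D * (if f x then 1 else 0)) ^ 2 ≤ 2 ^ n * 4 ^ D := by
    calc _ ≤ ∑ _x : Fin n → Bool, (4 : ℝ) ^ D := by
          refine Finset.sum_le_sum fun x _ => ?_
          have e : ((2 : ℝ) ^ D) ^ 2 = 4 ^ D := by rw [← pow_mul, mul_comm, pow_mul]; norm_num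
          split_ifs
          · rw [mul_one, e]
          · simp
      _ = 2 ^ n * 4 ^ D := by simp
  have h2 : ∑ x : Fin n → Bool, ((2 : ℝ) ^ D * (if f x then 1 else 0)) ^ 2 =
      2 ^ n * ∑ S : Finset (Fin n), (AA f D S : ℝ) ^ 2 := by
    simp_rw [expand hD, sq, Finset.sum_mul_sum]
    rw [Finset.sum_comm, Finset.mul_sum]
    refine Finset.sum_congr rfl fun S _ => ?_
    rw [Finset.sum_comm]
    have h3 : ∀ S' : Finset (Fin n), ∑ x : Fin n → Bool,
        (AA f D S : ℝ) * chi S x * ((AA f D S' : ℝ) * chi S' x) =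
        if S = S' then 2 ^ n * ((AA f D S : ℝ) * (AA f D S : ℝ)) else 0 := by
      intro S'
      have h4 : ∑ x : Fin n → Bool, (AA f D S : ℝ) * chi S x * ((AA f D S' : ℝ) * chi S' x) =
          ((AA f D S : ℝ) * (AA f D S' : ℝ)) * ∑ x : Fin n → Bool, chi S x * chi S' x := by
        rw [Finset.mul_sum]
        refine Finset.sum_congr rfl fun x _ => ?_
        ring
      rw [h4, orth]
      split_ifs with h
      · subst h; ring
      · simp
    simp_rw [h3]
    simp
  rw [h2] at h1
  exact le_of_mul_le_mul_left h1 (by positivity)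

variable (f D)

/-- support -/
noncomputable def supp : Finset (Finset (Fin n)) := univ.filter (fun S => AA f D S ≠ 0)

variable {f D}

lemma supp_card (hD : ∀ S, cf f S ≠ 0 → S.card ≤ D) : (supp f D).card ≤ 4 ^ D := by
  have h1 : ((supp f D).card : ℝ) ≤ ∑ S : Finset (Fin n), (AA f D S : ℝ) ^ 2 := by
    calc ((supp f D).card : ℝ) = ∑ _S ∈ supp f D, (1 : ℝ) := by simp
      _ ≤ ∑ S ∈ supp f D, (AA f D S : ℝ) ^ 2 := by
          refine Finset.sum_le_sum fun S hS => ?_
          simp only [supp, mem_filter, mem_univ, true_and] at hS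
          have : (1 : ℤ) ≤ (AA f D S) ^ 2 := by
            have : 0 < (AA f D S) ^ 2 := by positivity
            omega
          exact_mod_cast this
      _ ≤ _ := Finset.sum_le_sum_of_subset_of_nonneg (Finset.subset_univ _)
          (fun _ _ _ => by positivity)
  exact_mod_cast h1.trans (parseval hD)

lemma supp_le (hD : ∀ S, cf f S ≠ 0 → S.card ≤ D) {S : Finset (Fin n)} (hS : S ∈ supp f D) :
    S.card ≤ D := by
  simp only [supp, mem_filter, mem_univ, true_and] at hS
  by_contra hlt
  push Not at hlt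
  apply hS
  unfold AA
  apply mul_eq_zero_of_right
  apply Finset.sum_eq_zero
  intro T hT
  simp only [mem_filter, mem_univ, true_and] at hT
  have h1 := Finset.card_le_card hT
  have : cf f T = 0 := by
    by_contra h
    have := hD T h
    omega
  rw [this, zero_mul]

theorem circuit (hD : ∀ S, cf f S ≠ 0 → S.card ≤ D) :
    ∃ m : ℕ, m ≤ D * 4 ^ D + 1 ∧ Circ f m 2 := by
  classical
  let κ : Type := {S // S ∈ supp f D} × Fin D
  let ι : Type := Option κ
  have hcard : Fintype.card ι ≤ D * 4 ^ D + 1 := by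
    have h1 : Fintype.card ι = (supp f D).card * D + 1 := by
      simp [ι, κ]
    rw [h1, mul_comm]
    have := Nat.mul_le_mul_left D (supp_card hD)
    omega
  refine ⟨Fintype.card ι, hcard, ?_⟩
  let w : ι → Fin n → ℝ := fun j i => match j with
    | none => 0
    | some p => if i ∈ p.1.1 then 1 else 0
  let v : ι → ι → ℝ := fun j k => match j, k with
    | none, some p => 2 * (AA f D p.1.1 : ℝ) * (-1 : ℝ) ^ ((p.2 : ℕ) + 1)
    | _, _ => 0
  let θ : ι → ℝ := fun j => match j with
    | none => (2 : ℝ) ^ D / 2 - ∑ S ∈ supp f D, (AA f D S : ℝ)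
    | some p => ((p.2 : ℕ) : ℝ) + 1
  let ℓ : ι → ℕ := fun j => match j with
    | none => 2
    | some _ => 1
  let g : (Fin n → Bool) → ι → Bool := fun x j => match j with
    | none => f x
    | some p => decide ((p.2 : ℕ) + 1 ≤ kk p.1.1 x)
  refine circ_of w v θ ℓ none g ?_ ?_ ?_ ?_
  · intro j
    cases j <;> simp [ℓ]
  · intro j k h
    cases j with
    | none =>
      cases k with
      | none => simp [v] at h
      | some p => simp [ℓ]
    | some q => cases k <;> simp [v] at h
  · intro x j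
    cases j with
    | none =>
      have e1 : ∑ i : Fin n, w none i * (if x i then (1 : ℝ) else 0) = 0 := by simp [w]
      have e2 : ∑ k : ι, v none k * (if g x k then (1 : ℝ) else 0) =
          ∑ S ∈ supp f D, (AA f D S : ℝ) * (chi S x - 1) := by
        have e3 : ∑ k : ι, v none k * (if g x k then (1 : ℝ) else 0) =
            v none none * (if g x none then (1 : ℝ) else 0) +
            ∑ p : κ, v none (some p) * (if g x (some p) then (1 : ℝ) else 0) :=
          Fintype.sum_option _
        rw [e3]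
        have e4 : v none none = 0 := rfl
        rw [e4, zero_mul, zero_add, Fintype.sum_prod_type]
        rw [← Finset.sum_coe_sort (supp f D) (fun S => (AA f D S : ℝ) * (chi S x - 1))]
        refine Finset.sum_congr rfl fun S _ => ?_
        have hk : kk S.1 x ≤ D := by
          unfold kk
          exact (Finset.card_filter_le _ _).trans (supp_le hD S.2)
        rw [chi_eq, alt hk]
        have e5 : (AA f D S.1 : ℝ) * ((1 + 2 * ∑ j : Fin D, (-1 : ℝ) ^ ((j : ℕ) + 1) *
            (if (j : ℕ) + 1 ≤ kk S.1 x then (1 : ℝ) else 0)) - 1) =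
            ∑ j : Fin D, (2 * (AA f D S.1 : ℝ) * (-1 : ℝ) ^ ((j : ℕ) + 1)) *
            (if (j : ℕ) + 1 ≤ kk S.1 x then (1 : ℝ) else 0) := by
          rw [add_sub_cancel_left, Finset.mul_sum, Finset.mul_sum]
          refine Finset.sum_congr rfl fun j _ => ?_
          ring
        rw [e5]
        refine Finset.sum_congr rfl fun j _ => ?_
        simp [v, g]
      have e6 : ∑ S ∈ supp f D, (AA f D S : ℝ) * chi S x = (2 : ℝ) ^ D * (if f x then 1 else 0) := by
        rw [expand hD]
        apply Finset.sum_subset (Finset.subset_univ _)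
        intro S _ hS
        simp only [supp, mem_filter, mem_univ, true_and, not_not] at hS
        rw [hS]; simp
      have e7 : ∑ S ∈ supp f D, (AA f D S : ℝ) * (chi S x - 1) =
          (2 : ℝ) ^ D * (if f x then 1 else 0) - ∑ S ∈ supp f D, (AA f D S : ℝ) := by
        rw [← e6, ← Finset.sum_sub_distrib]
        refine Finset.sum_congr rfl fun S _ => ?_
        ring
      rw [e1, e2, e7]
      change f x = decide ((2 : ℝ) ^ D / 2 - ∑ S ∈ supp f D, (AA f D S : ℝ) ≤ _)
      have h2 : (0 : ℝ) < 2 ^ D := by positivity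
      cases hf : f x
      · symm
        rw [decide_eq_false_iff_not]
        simp only [Bool.false_eq_true, if_false]
        intro hle
        linarith
      · symm
        rw [decide_eq_true_eq]
        simp only [if_true]
        linarith
    | some p =>
      have e1 : ∑ i : Fin n, w (some p) i * (if x i then (1 : ℝ) else 0) = (kk p.1.1 x : ℝ) := by
        have : ∀ i : Fin n, w (some p) i * (if x i then (1 : ℝ) else 0) =
            if i ∈ p.1.1.filter (fun i => x i = true) then 1 else 0 := by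
          intro i
          by_cases h1 : i ∈ p.1.1 <;> by_cases h2 : x i = true <;> simp [w, h1, h2]
        simp_rw [this]
        rw [Finset.sum_ite_mem, Finset.univ_inter]
        simp [kk]
      have e2 : ∑ k : ι, v (some p) k * (if g x k then (1 : ℝ) else 0) = 0 := by
        apply Finset.sum_eq_zero
        intro k _
        cases k <;> simp [v]
      rw [e1, e2, add_zero]
      change decide ((p.2 : ℕ) + 1 ≤ kk p.1.1 x) = decide (((p.2 : ℕ) : ℝ) + 1 ≤ (kk p.1.1 x : ℝ))
      apply decide_eq_decide.2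
      constructor
      · intro h; exact_mod_cast h
      · intro h; exact_mod_cast h
  · intro x; rfl

end Pool.Agent.H184R4.TC
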